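import Mathlib

/-! Partial partitions into blocks and the merge step (smallest block merges with a neighbour). -/

namespace Pool.Agent.P.MP_7c03a7_pr

open Finset
open scoped Classical

variable {V : Type*}

/-- `B x` is the block of `x`, empty when `x` lies in the root block. -/
structure Good (L : Finset V) (B : V → Finset V) : Prop where
  self : ∀ x, (B x).Nonempty → x ∈ B x
  same : ∀ x y, y ∈ B x → B y = B x
  sub : ∀ x, B x ⊆ L

/-- Termination measure. -/
noncomputable def size (L : Finset V) (B : V → Finset V) : ℕ :=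
  ∑ x ∈ L, if (B x).Nonempty then L.card + 1 - (B x).card else 0

/-- `A` is a union of non-root blocks. -/
def Meas (B : V → Finset V) (A : Finset V) : Prop :=
  ∀ x ∈ A, (B x).Nonempty ∧ B x ⊆ A

/-- Height function of a partition. -/
noncomputable def ht (φ : ℕ → ℝ) (B : V → Finset V) (x : V) : ℝ :=
  if (B x).Nonempty then 1 / φ (B x).card else 0

/-- Hypotheses on the growth profile. -/
structure Prof (φ : ℕ → ℝ) (ρ : ℝ) : Prop where
  one_lt : 1 < ρ
  pos : ∀ n, 1 ≤ n → 0 < φ n
  mono : ∀ m n, 1 ≤ n → n ≤ m → φ n ≤ φ m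
  dbl : ∀ m n, 1 ≤ n → 2 * n ≤ m → ρ * φ n ≤ φ m

lemma ht_nonneg {φ : ℕ → ℝ} {ρ : ℝ} (hφ : Prof φ ρ) (B : V → Finset V) (x : V) :
    0 ≤ ht φ B x := by
  unfold ht
  split_ifs with h
  · exact (one_div_pos.2 (hφ.pos _ h.card_pos)).le
  · exact le_rfl

lemma ht_le {φ : ℕ → ℝ} {ρ : ℝ} (hφ : Prof φ ρ) (B : V → Finset V) (x : V) :
    ht φ B x ≤ 1 / φ 1 := by
  unfold ht
  split_ifs with h
  · exact one_div_le_one_div_of_le (hφ.pos 1 le_rfl) (hφ.mono _ _ le_rfl h.card_pos)
  · exact (one_div_pos.2 (hφ.pos 1 le_rfl)).le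

/-- The initial partition into singletons. -/
noncomputable def init (L : Finset V) (x : V) : Finset V := if x ∈ L then {x} else ∅

lemma good_init (L : Finset V) : Good L (init L) := by
  refine ⟨fun x hx => ?_, fun x y hy => ?_, fun x => ?_⟩
  · unfold init at *
    split_ifs at * with h
    · simp
    · simp at hx
  · unfold init at *
    by_cases h : x ∈ L
    · simp only [h, if_true, Finset.mem_singleton] at hy
      subst hy; rfl
    · simp [h] at hy
  · unfold init
    split_ifs with h
    · simpa using h
    · simp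

lemma meas_init {L A : Finset V} (hA : A ⊆ L) : Meas (init L) A := by
  intro x hx
  simp [init, hA hx, hx]

lemma merge_step {φ : ℕ → ℝ} {ρ : ℝ} (hφ : Prof φ ρ) {L : Finset V} {B : V → Finset V}
    (hB : Good L B) (hne : ∃ x, (B x).Nonempty) :
    ∃ D : Finset V, D.Nonempty ∧ D ⊆ L ∧ (∀ x ∈ D, ht φ B x = 1 / φ D.card) ∧
      (∀ A, Meas B A → D ⊆ A ∨ Disjoint D A) ∧
      ∀ x y, x ∈ D → y ∉ D → ∃ B', Good L B' ∧ size L B' < size L B ∧
        (∀ z, ht φ B' z ≤ ht φ B z) ∧ (∀ z ∈ D, ht φ B' z ≤ ht φ B z / ρ) ∧
        ∀ A, Meas B A → (x ∈ A ↔ y ∈ A) → Meas B' A := by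
  obtain ⟨x₁, hx₁⟩ := hne
  have hF : (L.filter fun x => (B x).Nonempty).Nonempty :=
    ⟨x₁, Finset.mem_filter.2 ⟨hB.sub _ (hB.self _ hx₁), hx₁⟩⟩
  obtain ⟨x₀, hx₀, hmin⟩ := Finset.exists_min_image _ (fun x => (B x).card) hF
  have hD : (B x₀).Nonempty := (Finset.mem_filter.1 hx₀).2
  have hmin' : ∀ y, (B y).Nonempty → (B x₀).card ≤ (B y).card := fun y hy =>
    hmin y (Finset.mem_filter.2 ⟨hB.sub _ (hB.self _ hy), hy⟩)
  have hρ : 0 < ρ := lt_trans one_pos hφ.one_lt
  refine ⟨B x₀, hD, hB.sub _, fun x hx => ?_, fun A hA => ?_, fun x y hx hy => ?_⟩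
  · unfold ht
    rw [hB.same _ _ hx, if_pos hD]
  · by_cases h : Disjoint (B x₀) A
    · exact Or.inr h
    · left
      obtain ⟨z, hz, hzA⟩ := Finset.not_disjoint_iff.1 h
      rw [← hB.same _ _ hz]
      exact (hA z hzA).2
  · set D := B x₀ with hDdef
    have hdisj : Disjoint D (B y) := by
      rw [Finset.disjoint_left]
      intro z hz hzy
      have h1 : B z = D := hB.same _ _ hz
      have h2 : B z = B y := hB.same _ _ hzy
      have h3 : y ∈ B y := hB.self _ ⟨z, hzy⟩
      exact hy (h1 ▸ h2 ▸ h3)
    set M : Finset V := if (B y).Nonempty then D ∪ B y else ∅ with hM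
    have hMsub : M ⊆ D ∪ B y := by
      rw [hM]; split_ifs <;> simp
    have hMne : M.Nonempty → (B y).Nonempty ∧ M = D ∪ B y := by
      intro h
      by_cases h' : (B y).Nonempty
      · exact ⟨h', by rw [hM, if_pos h']⟩
      · rw [hM, if_neg h'] at h; simp at h
    have hcard : (B y).Nonempty → (D ∪ B y).card = D.card + (B y).card := fun _ =>
      Finset.card_union_of_disjoint hdisj
    have hblock : ∀ z ∈ D ∪ B y, B z ⊆ D ∪ B y := by
      intro z hz
      rcases Finset.mem_union.1 hz with h | h
      · rw [hB.same _ _ h]; exact Finset.subset_union_left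
      · rw [hB.same _ _ h]; exact Finset.subset_union_right
    have hout : ∀ z, z ∉ D ∪ B y → ∀ w ∈ B z, w ∉ D ∪ B y := by
      intro z hz w hw hw'
      have h1 : B w = B z := hB.same _ _ hw
      exact hz (hblock w hw' (h1 ▸ hB.self z ⟨w, hw⟩))
    let B' : V → Finset V := fun z => if z ∈ D ∪ B y then M else B z
    have hB'in : ∀ z ∈ D ∪ B y, B' z = M := fun z hz => if_pos hz
    have hB'out : ∀ z, z ∉ D ∪ B y → B' z = B z := fun z hz => if_neg hz
    have hDht : ∀ z ∈ D, ht φ B' z ≤ ht φ B z / ρ := by
      intro z hz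
      have hz' : z ∈ D ∪ B y := Finset.mem_union_left _ hz
      unfold ht
      rw [hB'in z hz', hB.same _ _ hz, if_pos hD]
      have hpD := hφ.pos _ hD.card_pos
      split_ifs with h
      · obtain ⟨hy', hMe⟩ := hMne h
        have h2 : 2 * D.card ≤ M.card := by
          rw [hMe, hcard hy']; have := hmin' y hy'; omega
        have h3 := hφ.dbl _ _ hD.card_pos h2
        rw [div_div]
        exact one_div_le_one_div_of_le (by positivity) (by linarith)
      · positivity
    refine ⟨B', ⟨fun z hz => ?_, fun z w hw => ?_, fun z => ?_⟩, ?_, fun z => ?_, hDht,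
      fun A hA hxy => ?_⟩
    · by_cases h : z ∈ D ∪ B y
      · rw [hB'in z h] at hz ⊢
        rw [(hMne hz).2]; exact h
      · rw [hB'out z h] at hz ⊢
        exact hB.self z hz
    · by_cases h : z ∈ D ∪ B y
      · rw [hB'in z h] at hw ⊢
        exact hB'in w (hMsub hw)
      · rw [hB'out z h] at hw ⊢
        rw [hB'out w (hout z h w hw)]
        exact hB.same _ _ hw
    · by_cases h : z ∈ D ∪ B y
      · rw [hB'in z h]
        exact hMsub.trans (Finset.union_subset (hB.sub _) (hB.sub _))
      · rw [hB'out z h]; exact hB.sub z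
    · unfold size
      refine Finset.sum_lt_sum (fun z _ => ?_) ⟨x, hB.sub _ hx, ?_⟩
      · by_cases h : z ∈ D ∪ B y
        · rw [hB'in z h]
          by_cases hM' : M.Nonempty
          · have hzne : (B z).Nonempty := by
              rcases Finset.mem_union.1 h with h' | h'
              · rw [hB.same _ _ h']; exact hD
              · rw [hB.same _ _ h']; exact (hMne hM').1
            have hle : (B z).card ≤ M.card := by
              rw [(hMne hM').2]; exact Finset.card_le_card (hblock z h)
            rw [if_pos hM', if_pos hzne]; omega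
          · rw [if_neg hM']; exact Nat.zero_le _
        · rw [hB'out z h]
      · have hx' : x ∈ D ∪ B y := Finset.mem_union_left _ hx
        have hDL : D.card ≤ L.card := Finset.card_le_card (hB.sub _)
        have hBx : B x = D := hB.same _ _ hx
        rw [hB'in x hx', hBx, if_pos hD]
        by_cases hM' : M.Nonempty
        · obtain ⟨hy', hMe⟩ := hMne hM'
          have h2 : D.card < M.card := by
            rw [hMe, hcard hy']; have := hy'.card_pos; omega
          rw [if_pos hM']; omega
        · rw [if_neg hM']; omega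
    · by_cases h : z ∈ D ∪ B y
      · rcases Finset.mem_union.1 h with h' | h'
        · refine le_trans (hDht z h') ?_
          exact div_le_self (ht_nonneg hφ B z) hφ.one_lt.le
        · have hy' : (B y).Nonempty := ⟨z, h'⟩
          have hMe : M = D ∪ B y := by rw [hM, if_pos hy']
          unfold ht
          rw [hB'in z h, hB.same _ _ h', if_pos hy', hMe, if_pos (hD.mono Finset.subset_union_left)]
          exact one_div_le_one_div_of_le (hφ.pos _ hy'.card_pos)
            (hφ.mono _ _ hy'.card_pos (Finset.card_le_card Finset.subset_union_right))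
      · unfold ht
        rw [hB'out z h]
    · intro z hz
      by_cases h : z ∈ D ∪ B y
      · have hxA : x ∈ A := by
          rcases Finset.mem_union.1 h with h' | h'
          · have := (hA z hz).2
            rw [hB.same _ _ h'] at this
            exact this hx
          · have := (hA z hz).2
            rw [hB.same _ _ h'] at this
            exact hxy.2 (this (hB.self y ⟨z, h'⟩))
        have hyA : y ∈ A := hxy.1 hxA
        have hy' := (hA y hyA).1
        have hMe : M = D ∪ B y := by rw [hM, if_pos hy']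
        rw [hB'in z h, hMe]
        refine ⟨hD.mono Finset.subset_union_left, Finset.union_subset ?_ (hA y hyA).2⟩
        have := (hA x hxA).2
        rwa [hB.same _ _ hx] at this
      · rw [hB'out z h]; exact hA z hz

end Pool.Agent.P.MP_7c03a7_pr
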