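import Pool.Agent.P.MP_7c03a7_pr.Blocks

/-! The weighted count of irreducible cuts by random contraction. -/

namespace Pool.Agent.P.MP_7c03a7_pr

open Finset
open scoped Classical

variable {V E : Type*}

/-- The edge `e` has exactly one endpoint in `A`. -/
def Cross (src tgt : E → V) (A : Finset V) (e : E) : Prop := ¬ (src e ∈ A ↔ tgt e ∈ A)

/-- Weight of the boundary of `A`. -/
noncomputable def bd (src tgt : E → V) (s : Finset E) (w : E → ℝ) (A : Finset V) : ℝ :=
  ∑ e ∈ s.filter (Cross src tgt A), w e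

/-- Irreducible cuts: both sides are connected through weight at least one. -/
def Valid (src tgt : E → V) (s : Finset E) (w : E → ℝ) (L : Finset V) (o : V) (A : Finset V) :
    Prop :=
  o ∈ A ∧ ∀ D : Finset V, D.Nonempty → D ⊆ L → D ≠ A → (D ⊆ A ∨ Disjoint D A) →
    1 ≤ ∑ e ∈ s.filter (fun e => Cross src tgt D e ∧ ¬ Cross src tgt A e), w e

/-- The potential of a cut. -/
noncomputable def Psi (src tgt : E → V) (s : Finset E) (w : E → ℝ) (K : ℝ) (h : V → ℝ)
    (A : Finset V) : ℝ :=
  K * ∑ e ∈ s.filter (Cross src tgt A), w e * (h (src e) + h (tgt e))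

lemma core_ineq {m β f : ℝ} (hm : 1 ≤ m) (hβ : 0 ≤ β) (hf : 0 < f) (h : f ^ 2 ≤ m + β) :
    m + β ≤ m * Real.exp (2 * β / f) := by
  have h1 : 1 + β / f ≤ Real.exp (β / f) := by linarith [Real.add_one_le_exp (β / f)]
  have h0 : 0 ≤ β / f := div_nonneg hβ hf.le
  have h2 : (1 + β / f) ^ 2 ≤ Real.exp (2 * β / f) := by
    have : Real.exp (2 * β / f) = Real.exp (β / f) ^ 2 := by
      rw [← Real.exp_nat_mul]; congr 1; push_cast; ring
    rw [this]
    exact pow_le_pow_left₀ (by linarith) h1 2
  have h3 : f ^ 2 ≤ 2 * m * f + m * β := by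
    by_cases hf2 : 1 / 2 ≤ f
    · nlinarith
    · push Not at hf2
      nlinarith
  have h4 : m + β ≤ m * (1 + β / f) ^ 2 := by
    have e1 : m * (1 + β / f) ^ 2 = m + β * (2 * m * f + m * β) / f ^ 2 := by
      field_simp; ring
    rw [e1]
    have : β ≤ β * (2 * m * f + m * β) / f ^ 2 := by
      rw [le_div_iff₀ (by positivity)]
      exact mul_le_mul_of_nonneg_left h3 hβ
    linarith
  exact h4.trans (mul_le_mul_of_nonneg_left h2 (by linarith))

/-- The merge step phrased for edges. -/
lemma merge_edge (src tgt : E → V) {φ : ℕ → ℝ} {ρ : ℝ} (hφ : Prof φ ρ) {L : Finset V}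
    {B : V → Finset V} (hB : Good L B) (hne : ∃ x, (B x).Nonempty) :
    ∃ D : Finset V, D.Nonempty ∧ D ⊆ L ∧ (∀ x ∈ D, ht φ B x = 1 / φ D.card) ∧
      (∀ A, Meas B A → D ⊆ A ∨ Disjoint D A) ∧
      ∀ e, Cross src tgt D e → ∃ B', Good L B' ∧ size L B' < size L B ∧
        (∀ z, ht φ B' z ≤ ht φ B z) ∧ (∀ z ∈ D, ht φ B' z ≤ ht φ B z / ρ) ∧
        ∀ A, Meas B A → ¬ Cross src tgt A e → Meas B' A := by
  obtain ⟨D, h1, h2, h3, h4, h5⟩ := merge_step hφ hB hne
  refine ⟨D, h1, h2, h3, h4, fun e he => ?_⟩
  unfold Cross at he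
  by_cases hs : src e ∈ D
  · have ht' : tgt e ∉ D := fun h => he ⟨fun _ => h, fun _ => hs⟩
    obtain ⟨B', a1, a2, a3, a4, a5⟩ := h5 _ _ hs ht'
    exact ⟨B', a1, a2, a3, a4, fun A hA hc => a5 A hA (not_not.1 hc)⟩
  · have ht' : tgt e ∈ D := by
      by_contra h
      exact he ⟨fun h' => absurd h' hs, fun h' => absurd h' h⟩
    obtain ⟨B', a1, a2, a3, a4, a5⟩ := h5 _ _ ht' hs
    exact ⟨B', a1, a2, a3, a4, fun A hA hc => a5 A hA (not_not.1 hc).symm⟩

/-- Height drop along an edge leaving the merged block. -/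
lemma ht_drop {src tgt : E → V} {D : Finset V} {h h' : V → ℝ} {f ρ : ℝ}
    (hD : ∀ x ∈ D, h x = 1 / f) (h1 : ∀ z, h' z ≤ h z) (h2 : ∀ z ∈ D, h' z ≤ h z / ρ)
    (e : E) :
    h' (src e) + h' (tgt e) + (if Cross src tgt D e then (1 - 1 / ρ) / f else 0)
      ≤ h (src e) + h (tgt e) := by
  split_ifs with he
  · unfold Cross at he
    by_cases hs : src e ∈ D
    · have a := h2 _ hs
      have b := h1 (tgt e)
      rw [hD _ hs] at a ⊢
      have : (1 - 1 / ρ) / f = 1 / f - 1 / f / ρ := by ring
      linarith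
    · have ht' : tgt e ∈ D := by
        by_contra h
        exact he ⟨fun h' => absurd h' hs, fun h' => absurd h' h⟩
      have a := h2 _ ht'
      have b := h1 (src e)
      rw [hD _ ht'] at a ⊢
      have : (1 - 1 / ρ) / f = 1 / f - 1 / f / ρ := by ring
      linarith
  · linarith [h1 (src e), h1 (tgt e)]

lemma count_aux (src tgt : E → V) (s : Finset E) {w : E → ℝ} (hw : ∀ e ∈ s, 0 ≤ w e)
    {φ : ℕ → ℝ} {ρ : ℝ} (hφ : Prof φ ρ) {L : Finset V} (o : V)
    (hiso : ∀ S : Finset V, S.Nonempty → S ⊆ L → φ S.card ^ 2 ≤ bd src tgt s w S)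
    {K u : ℝ} (hK : 2 ≤ K * (1 - 1 / ρ)) (hu : 1 ≤ u * (1 - 1 / ρ) * K) :
    ∀ n : ℕ, ∀ B : V → Finset V, Good L B → size L B < n →
      ∑ A ∈ L.powerset.filter (fun A => Valid src tgt s w L o A ∧ Meas B A),
        Real.exp (-Psi src tgt s w K (ht φ B) A) ≤ u * ht φ B o := by
  have hρ : 0 < ρ := lt_trans one_pos hφ.one_lt
  have hη : 0 < 1 - 1 / ρ := by
    have : 1 / ρ < 1 := (div_lt_one hρ).2 hφ.one_lt
    linarith
  have hK0 : 0 < K := by
    by_contra h
    push Not at h
    nlinarith
  have hu0 : 0 < u := by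
    by_contra h
    push Not at h
    nlinarith [mul_pos hη hK0]
  intro n
  induction n with
  | zero => intro B _ h; omega
  | succ n ih =>
    intro B hB hn
    by_cases hne : ∃ x, (B x).Nonempty
    swap
    · rw [Finset.sum_eq_zero]
      · exact mul_nonneg hu0.le (ht_nonneg hφ B o)
      · intro A hA
        obtain ⟨_, hv, hm⟩ := Finset.mem_filter.1 hA
        exact absurd ⟨o, (hm o hv.1).1⟩ hne
    obtain ⟨D, hDne, hDL, hDht, hDat, hDm⟩ := merge_edge src tgt hφ hB hne
    choose! B' hB'good hB'size hB'le hB'le' hB'meas using hDm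
    set f := φ D.card with hf
    have hf0 : 0 < f := hφ.pos _ hDne.card_pos
    set X := s.filter (Cross src tgt D) with hX
    set b := ∑ e ∈ X, w e with hb
    have hfb : f ^ 2 ≤ b := hiso D hDne hDL
    have hb0 : 0 < b := lt_of_lt_of_le (by positivity) hfb
    have hXc : ∀ e ∈ X, Cross src tgt D e := fun e he => (Finset.mem_filter.1 he).2
    have hXw : ∀ e ∈ X, 0 ≤ w e := fun e he => hw e (Finset.mem_filter.1 he).1
    set 𝒜 := L.powerset.filter (fun A => Valid src tgt s w L o A ∧ Meas B A) with h𝒜
    -- the bound for one cut different from `D`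
    have key : ∀ A ∈ 𝒜.erase D, Real.exp (-Psi src tgt s w K (ht φ B) A)
        ≤ ∑ e ∈ X, w e / b * (if Valid src tgt s w L o A ∧ Meas (B' e) A then
            Real.exp (-Psi src tgt s w K (ht φ (B' e)) A) else 0) := by
      intro A hA
      obtain ⟨hAD, hA'⟩ := Finset.mem_erase.1 hA
      obtain ⟨_, hv, hm⟩ := Finset.mem_filter.1 hA'
      set m := ∑ e ∈ s.filter (fun e => Cross src tgt D e ∧ ¬ Cross src tgt A e), w e with hmdef
      set β := ∑ e ∈ s.filter (fun e => Cross src tgt A e ∧ Cross src tgt D e), w e with hβ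
      have hm1 : 1 ≤ m := hv.2 D hDne hDL (Ne.symm hAD) (hDat A hm)
      have hβ0 : 0 ≤ β := Finset.sum_nonneg fun e he => hw e (Finset.mem_filter.1 he).1
      have hmβ : m + β = b := by
        rw [hb, hX, ← Finset.sum_filter_add_sum_filter_not _ (fun e => ¬ Cross src tgt A e),
          Finset.filter_filter, Finset.filter_filter]
        congr 1
        refine Finset.sum_congr (Finset.filter_congr fun e _ => ?_) fun _ _ => rfl
        rw [not_not]
        exact and_comm
      have hpsi : ∀ e ∈ X, Psi src tgt s w K (ht φ (B' e)) A + K * ((1 - 1 / ρ) / f * β)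
          ≤ Psi src tgt s w K (ht φ B) A := by
        intro e he
        unfold Psi
        rw [← mul_add]
        refine mul_le_mul_of_nonneg_left ?_ hK0.le
        have hβ' : (1 - 1 / ρ) / f * β = ∑ e' ∈ s.filter (Cross src tgt A),
            w e' * (if Cross src tgt D e' then (1 - 1 / ρ) / f else 0) := by
          rw [hβ, ← Finset.filter_filter, Finset.sum_filter (Cross src tgt D), Finset.mul_sum]
          refine Finset.sum_congr rfl fun e' _ => ?_
          split_ifs <;> ring
        rw [hβ', ← Finset.sum_add_distrib]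
        refine Finset.sum_le_sum fun e' he' => ?_
        rw [← mul_add]
        exact mul_le_mul_of_nonneg_left
          (ht_drop hDht (hB'le e (hXc e he)) (hB'le' e (hXc e he)) e')
          (hw e' (Finset.mem_filter.1 he').1)
      have hexp : b ≤ m * Real.exp (K * ((1 - 1 / ρ) / f * β)) := by
        have h1 := core_ineq hm1 hβ0 hf0 (by rw [hmβ]; exact hfb)
        rw [hmβ] at h1
        refine h1.trans (mul_le_mul_of_nonneg_left (Real.exp_le_exp.2 ?_) (by linarith))
        have : K * ((1 - 1 / ρ) / f * β) = K * (1 - 1 / ρ) * β / f := by ring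
        rw [this]
        exact div_le_div_of_nonneg_right (mul_le_mul_of_nonneg_right hK hβ0) hf0.le
      set P := Real.exp (-Psi src tgt s w K (ht φ B) A) with hP
      have hP0 : 0 < P := Real.exp_pos _
      calc P ≤ m / b * (P * Real.exp (K * ((1 - 1 / ρ) / f * β))) := by
            rw [div_mul_eq_mul_div, le_div_iff₀ hb0]
            nlinarith
        _ = ∑ e ∈ X, w e / b * (if ¬ Cross src tgt A e then
              P * Real.exp (K * ((1 - 1 / ρ) / f * β)) else 0) := by
            rw [hmdef, ← Finset.filter_filter, Finset.sum_filter (fun e => ¬ Cross src tgt A e),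
              Finset.sum_div, Finset.sum_mul]
            refine Finset.sum_congr rfl fun e _ => ?_
            split_ifs <;> ring
        _ ≤ _ := by
            refine Finset.sum_le_sum fun e he => ?_
            refine mul_le_mul_of_nonneg_left ?_ (div_nonneg (hXw e he) hb0.le)
            by_cases hc : Cross src tgt A e
            · rw [if_neg (not_not.2 hc)]
              split_ifs
              · exact (Real.exp_pos _).le
              · exact le_rfl
            · rw [if_pos hc, if_pos ⟨hv, hB'meas e (hXc e he) A hm hc⟩, hP, ← Real.exp_add]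
              exact Real.exp_le_exp.2 (by linarith [hpsi e he])
    -- summing over the cuts different from `D`
    have hsum : ∀ c : ℝ, (∀ e ∈ X, ht φ (B' e) o ≤ c) →
        ∑ A ∈ 𝒜.erase D, Real.exp (-Psi src tgt s w K (ht φ B) A) ≤ u * c := by
      intro c hc
      calc ∑ A ∈ 𝒜.erase D, Real.exp (-Psi src tgt s w K (ht φ B) A)
          ≤ ∑ A ∈ 𝒜.erase D, ∑ e ∈ X, w e / b * (if Valid src tgt s w L o A ∧ Meas (B' e) A then
            Real.exp (-Psi src tgt s w K (ht φ (B' e)) A) else 0) := Finset.sum_le_sum key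
        _ ≤ ∑ A ∈ L.powerset, ∑ e ∈ X, w e / b *
            (if Valid src tgt s w L o A ∧ Meas (B' e) A then
              Real.exp (-Psi src tgt s w K (ht φ (B' e)) A) else 0) := by
            refine Finset.sum_le_sum_of_subset_of_nonneg
              ((Finset.erase_subset _ _).trans (Finset.filter_subset _ _)) fun A _ _ => ?_
            refine Finset.sum_nonneg fun e he => mul_nonneg (div_nonneg (hXw e he) hb0.le) ?_
            split_ifs
            · exact (Real.exp_pos _).le
            · exact le_rfl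
        _ = ∑ e ∈ X, w e / b * ∑ A ∈ L.powerset.filter
              (fun A => Valid src tgt s w L o A ∧ Meas (B' e) A),
              Real.exp (-Psi src tgt s w K (ht φ (B' e)) A) := by
            rw [Finset.sum_comm]
            refine Finset.sum_congr rfl fun e _ => ?_
            rw [Finset.sum_filter, Finset.mul_sum]
        _ ≤ ∑ e ∈ X, w e / b * (u * c) := by
            refine Finset.sum_le_sum fun e he => ?_
            refine mul_le_mul_of_nonneg_left ?_ (div_nonneg (hXw e he) hb0.le)
            refine (ih (B' e) (hB'good e (hXc e he)) ?_).trans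
              (mul_le_mul_of_nonneg_left (hc e he) hu0.le)
            have := hB'size e (hXc e he)
            omega
        _ = u * c := by
            rw [← Finset.sum_mul, ← Finset.sum_div, ← hb, div_self hb0.ne', one_mul]
    by_cases hD𝒜 : D ∈ 𝒜
    · obtain ⟨_, hv, _⟩ := Finset.mem_filter.1 hD𝒜
      have hoD : o ∈ D := hv.1
      have h1 := hsum (1 / f / ρ) fun e he => by
        have := hB'le' e (hXc e he) o hoD
        rwa [hDht o hoD] at this
      have h2 : K * f ≤ Psi src tgt s w K (ht φ B) D := by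
        unfold Psi
        refine mul_le_mul_of_nonneg_left ?_ hK0.le
        calc f ≤ b * (1 / f) := by
              rw [mul_one_div, le_div_iff₀ hf0]; nlinarith
          _ = ∑ e ∈ X, w e * (1 / f) := by rw [hb, Finset.sum_mul]
          _ ≤ _ := by
              refine Finset.sum_le_sum fun e he => mul_le_mul_of_nonneg_left ?_ (hXw e he)
              have hc := hXc e he
              unfold Cross at hc
              by_cases hs : src e ∈ D
              · rw [hDht _ hs]; linarith [ht_nonneg hφ B (tgt e)]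
              · have ht' : tgt e ∈ D := by
                  by_contra h
                  exact hc ⟨fun h' => absurd h' hs, fun h' => absurd h' h⟩
                rw [hDht _ ht']; linarith [ht_nonneg hφ B (src e)]
      have h3 : Real.exp (-Psi src tgt s w K (ht φ B) D) ≤ u * (1 - 1 / ρ) / f := by
        have a1 : Real.exp (-Psi src tgt s w K (ht φ B) D) ≤ Real.exp (-(K * f)) :=
          Real.exp_le_exp.2 (by linarith)
        have a2 : K * f ≤ Real.exp (K * f) := by linarith [Real.add_one_le_exp (K * f)]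
        have a3 : Real.exp (-(K * f)) ≤ 1 / (K * f) := by
          rw [Real.exp_neg, ← one_div]
          exact one_div_le_one_div_of_le (by positivity) a2
        refine a1.trans (a3.trans ?_)
        rw [div_le_div_iff₀ (by positivity) hf0]
        nlinarith
      rw [← Finset.add_sum_erase _ _ hD𝒜, hDht o hoD]
      have : u * (1 / f) = u * (1 - 1 / ρ) / f + u * (1 / f / ρ) := by ring
      linarith
    · rw [← Finset.erase_eq_of_notMem hD𝒜]
      exact hsum _ fun e he => hB'le e (hXc e he) o

/-- The weighted number of irreducible cuts is small. -/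
lemma count_cuts (src tgt : E → V) (s : Finset E) {w : E → ℝ} (hw : ∀ e ∈ s, 0 ≤ w e)
    {φ : ℕ → ℝ} {ρ : ℝ} (hφ : Prof φ ρ) {L : Finset V} (o : V)
    (hiso : ∀ S : Finset V, S.Nonempty → S ⊆ L → φ S.card ^ 2 ≤ bd src tgt s w S)
    {K u : ℝ} (hK : 2 ≤ K * (1 - 1 / ρ)) (hu : 1 ≤ u * (1 - 1 / ρ) * K) :
    ∑ A ∈ L.powerset, (if Valid src tgt s w L o A then
      Real.exp (-(2 * K / φ 1 * bd src tgt s w A)) else 0) ≤ u / φ 1 := by
  have hρ : 0 < ρ := lt_trans one_pos hφ.one_lt
  have hη : 0 < 1 - 1 / ρ := by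
    have : 1 / ρ < 1 := (div_lt_one hρ).2 hφ.one_lt
    linarith
  have hK0 : 0 < K := by
    by_contra h
    push Not at h
    nlinarith
  have hu0 : 0 < u := by
    by_contra h
    push Not at h
    nlinarith [mul_pos hη hK0]
  have h := count_aux src tgt s hw hφ o hiso hK hu _ (init L) (good_init L) (Nat.lt_succ_self _)
  rw [Finset.sum_filter] at h
  refine le_trans (Finset.sum_le_sum fun A hA => ?_) (h.trans ?_)
  · have hm : Meas (init L) A := meas_init (Finset.mem_powerset.1 hA)
    by_cases hv : Valid src tgt s w L o A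
    · rw [if_pos hv, if_pos ⟨hv, hm⟩]
      refine Real.exp_le_exp.2 (neg_le_neg ?_)
      unfold Psi bd
      have : 2 * K / φ 1 * ∑ e ∈ s.filter (Cross src tgt A), w e
          = K * ∑ e ∈ s.filter (Cross src tgt A), w e * (1 / φ 1 + 1 / φ 1) := by
        rw [← Finset.sum_mul]; ring
      rw [this]
      refine mul_le_mul_of_nonneg_left (Finset.sum_le_sum fun e he => ?_) hK0.le
      exact mul_le_mul_of_nonneg_left (add_le_add (ht_le hφ _ _) (ht_le hφ _ _))
        (hw e (Finset.mem_filter.1 he).1)
    · rw [if_neg hv, if_neg (fun h => hv h.1)]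
  · rw [div_eq_mul_one_div]
    exact mul_le_mul_of_nonneg_left (ht_le hφ _ _) hu0.le

end Pool.Agent.P.MP_7c03a7_pr
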