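import Mathlib

/-! Long range percolation on a group: the definitions of the problem. -/

namespace Pool.Agent.P.MP_7c03a7_pr

open MeasureTheory ProbabilityTheory
open scoped NNReal ENNReal

variable {Γ : Type*}

/-- Unordered pairs of distinct elements. -/
abbrev Pairs (Γ : Type*) := {e : Sym2 Γ // ¬ e.IsDiag}

lemma weight_symm [Group Γ] (μ : PMF Γ) (hμ : ∀ g, μ g⁻¹ = μ g) (g h : Γ) :
    (μ (g⁻¹ * h)).toNNReal = (μ (h⁻¹ * g)).toNNReal := by
  rw [← hμ (g⁻¹ * h), mul_inv_rev, inv_inv]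

/-- The weight `μ (g⁻¹ h)` of the unordered pair `{g, h}`, well defined since `μ` is symmetric. -/
noncomputable def pairWeight [Group Γ] (μ : PMF Γ) (hμ : ∀ g, μ g⁻¹ = μ g) : Sym2 Γ → ℝ≥0 :=
  Sym2.lift ⟨fun g h => (μ (g⁻¹ * h)).toNNReal, weight_symm μ hμ⟩

/-- The law of the edge multiplicities: independent Poisson variables with means
`lam * μ (g⁻¹ h)`. -/
noncomputable def law [Group Γ] (μ : PMF Γ) (hμ : ∀ g, μ g⁻¹ = μ g) (lam : ℝ≥0) :
    Measure (Pairs Γ → ℕ) :=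
  Measure.infinitePi fun e : Pairs Γ => poissonMeasure (lam * pairWeight μ hμ e.1)

/-- The simple graph underlying the multigraph with edge multiplicities `ω`. -/
def graphOf (ω : Pairs Γ → ℕ) : SimpleGraph Γ :=
  SimpleGraph.fromEdgeSet {e | ∃ h : ¬ e.IsDiag, ω ⟨e, h⟩ ≠ 0}

/-- The multigraph has an infinite connected component. -/
def HasInfiniteComponent (ω : Pairs Γ → ℕ) : Prop :=
  ∃ g : Γ, {h : Γ | (graphOf ω).Reachable g h}.Infinite

/-- The critical parameter. -/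
noncomputable def lambdaC [Group Γ] (μ : PMF Γ) (hμ : ∀ g, μ g⁻¹ = μ g) : ℝ≥0∞ :=
  ⨆ (lam : ℝ≥0) (_ : 0 < lam) (_ : law μ hμ lam {ω | HasInfiniteComponent ω} = 0), (lam : ℝ≥0∞)

/-- The weighted edge boundary of a finite set. -/
noncomputable def boundary [Group Γ] (μ : PMF Γ) (S : Finset Γ) : ℝ≥0∞ :=
  ∑' p : {p : Γ × Γ // p.1 ∈ S ∧ p.2 ∉ S}, μ (p.1.1⁻¹ * p.1.2)

/-- The isoperimetric constant in dimension `d`. -/
noncomputable def isoConst [Group Γ] (μ : PMF Γ) (d : ℝ≥0) : ℝ≥0∞ :=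
  ⨅ (S : Finset Γ) (_ : S.Nonempty), boundary μ S / (S.card : ℝ≥0∞) ^ (((d : ℝ) - 1) / d)

/-- The isoperimetric dimension. -/
noncomputable def isoDim [Group Γ] (μ : PMF Γ) : ℝ≥0∞ :=
  ⨆ (d : ℝ≥0) (_ : 0 < d) (_ : 0 < isoConst μ d), (d : ℝ≥0∞)

end Pool.Agent.P.MP_7c03a7_pr
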