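import Mathlib

/-! Expectation over independent edge percolation on a finite edge set. -/

namespace Pool.Agent.P.MP_7c03a7_pr

open Finset
open scoped Classical

variable {E : Type*}

/-- Expectation of `F` when each edge `e` of `s` is open with probability `1 - exp (-t e)`. -/
noncomputable def Ex (s : Finset E) (t : E → ℝ) (F : Finset E → ℝ) : ℝ :=
  ∑ ω ∈ s.powerset,
    ((∏ e ∈ ω, (1 - Real.exp (-t e))) * ∏ e ∈ s \ ω, Real.exp (-t e)) * F ω

lemma Ex_empty (t : E → ℝ) (F : Finset E → ℝ) : Ex ∅ t F = F ∅ := by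
  simp [Ex]

lemma Ex_insert {s : Finset E} {e : E} (he : e ∉ s) (t : E → ℝ) (F : Finset E → ℝ) :
    Ex (insert e s) t F = Real.exp (-t e) * Ex s t F
      + (1 - Real.exp (-t e)) * Ex s t (fun ω => F (insert e ω)) := by
  unfold Ex
  rw [Finset.sum_powerset_insert he, Finset.mul_sum, Finset.mul_sum]
  congr 1
  · refine Finset.sum_congr rfl fun ω hω => ?_
    have hω' : ω ⊆ s := Finset.mem_powerset.1 hω
    have heω : e ∉ ω := fun h => he (hω' h)
    have h1 : insert e s \ ω = insert e (s \ ω) := Finset.insert_sdiff_of_notMem _ heω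
    have h2 : e ∉ s \ ω := fun h => he (Finset.mem_sdiff.1 h).1
    rw [h1, Finset.prod_insert h2]; ring
  · refine Finset.sum_congr rfl fun ω hω => ?_
    have hω' : ω ⊆ s := Finset.mem_powerset.1 hω
    have heω : e ∉ ω := fun h => he (hω' h)
    have h1 : insert e s \ insert e ω = s \ ω := by
      ext x
      simp only [Finset.mem_sdiff, Finset.mem_insert]
      constructor
      · rintro ⟨h | h, h'⟩
        · exact absurd (Or.inl h) h'
        · exact ⟨h, fun hx => h' (Or.inr hx)⟩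
      · rintro ⟨h, h'⟩
        refine ⟨Or.inr h, ?_⟩
        rintro (rfl | hx)
        · exact he h
        · exact h' hx
    rw [h1, Finset.prod_insert heω]; ring

lemma Ex_erase {s : Finset E} {e : E} (he : e ∈ s) (t : E → ℝ) (F : Finset E → ℝ) :
    Ex s t F = Real.exp (-t e) * Ex (s.erase e) t F
      + (1 - Real.exp (-t e)) * Ex (s.erase e) t (fun ω => F (insert e ω)) := by
  conv_lhs => rw [← Finset.insert_erase he]
  exact Ex_insert (Finset.notMem_erase e s) t F

lemma Ex_congr {s : Finset E} {t : E → ℝ} {F G : Finset E → ℝ}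
    (h : ∀ ω ⊆ s, F ω = G ω) : Ex s t F = Ex s t G := by
  unfold Ex
  exact Finset.sum_congr rfl fun ω hω => by rw [h ω (Finset.mem_powerset.1 hω)]

lemma Ex_congr_t {s : Finset E} {t t' : E → ℝ} (F : Finset E → ℝ)
    (h : ∀ e ∈ s, t e = t' e) : Ex s t F = Ex s t' F := by
  unfold Ex
  refine Finset.sum_congr rfl fun ω hω => ?_
  have hω' : ω ⊆ s := Finset.mem_powerset.1 hω
  have h1 : ∏ e ∈ ω, (1 - Real.exp (-t e)) = ∏ e ∈ ω, (1 - Real.exp (-t' e)) :=
    Finset.prod_congr rfl fun e he => by rw [h e (hω' he)]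
  have h2 : ∏ e ∈ s \ ω, Real.exp (-t e) = ∏ e ∈ s \ ω, Real.exp (-t' e) :=
    Finset.prod_congr rfl fun e he => by rw [h e (Finset.mem_sdiff.1 he).1]
  rw [h1, h2]

lemma one_sub_exp_nonneg {x : ℝ} (hx : 0 ≤ x) : 0 ≤ 1 - Real.exp (-x) := by
  have : Real.exp (-x) ≤ 1 := Real.exp_le_one_iff.2 (by linarith)
  linarith

lemma weight_nonneg {s : Finset E} {t : E → ℝ} (ht : ∀ e ∈ s, 0 ≤ t e) {ω : Finset E}
    (hω : ω ⊆ s) :
    0 ≤ (∏ e ∈ ω, (1 - Real.exp (-t e))) * ∏ e ∈ s \ ω, Real.exp (-t e) :=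
  mul_nonneg (Finset.prod_nonneg fun e he => one_sub_exp_nonneg (ht e (hω he)))
    (Finset.prod_nonneg fun _ _ => (Real.exp_pos _).le)

lemma Ex_mono {s : Finset E} {t : E → ℝ} (ht : ∀ e ∈ s, 0 ≤ t e) {F G : Finset E → ℝ}
    (h : ∀ ω ⊆ s, F ω ≤ G ω) : Ex s t F ≤ Ex s t G := by
  unfold Ex
  refine Finset.sum_le_sum fun ω hω => ?_
  have hω' : ω ⊆ s := Finset.mem_powerset.1 hω
  exact mul_le_mul_of_nonneg_left (h ω hω') (weight_nonneg ht hω')

lemma Ex_const (s : Finset E) (t : E → ℝ) (a : ℝ) : Ex s t (fun _ => a) = a := by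
  induction s using Finset.induction_on with
  | empty => simp [Ex_empty]
  | insert e s he ih => rw [Ex_insert he, ih]; ring

lemma Ex_nonneg {s : Finset E} {t : E → ℝ} (ht : ∀ e ∈ s, 0 ≤ t e) {F : Finset E → ℝ}
    (h : ∀ ω, 0 ≤ F ω) : 0 ≤ Ex s t F := by
  have := Ex_mono ht (F := fun _ => (0 : ℝ)) (G := F) fun ω _ => h ω
  rwa [Ex_const] at this

lemma Ex_sum {ι : Type*} (s : Finset E) (t : E → ℝ) (I : Finset ι) (F : ι → Finset E → ℝ) :
    Ex s t (fun ω => ∑ i ∈ I, F i ω) = ∑ i ∈ I, Ex s t (F i) := by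
  unfold Ex
  rw [Finset.sum_comm]
  exact Finset.sum_congr rfl fun ω _ => by rw [Finset.mul_sum]

lemma Ex_mul (s : Finset E) (t : E → ℝ) (a : ℝ) (F : Finset E → ℝ) :
    Ex s t (fun ω => F ω * a) = Ex s t F * a := by
  unfold Ex
  rw [Finset.sum_mul]
  exact Finset.sum_congr rfl fun ω _ => by ring

/-- More intensity makes a decreasing functional smaller. -/
lemma Ex_anti {s : Finset E} {t t' : E → ℝ} (ht : ∀ e ∈ s, 0 ≤ t e) (htt : ∀ e ∈ s, t e ≤ t' e)
    {g : Finset E → ℝ} (hg : Antitone g) : Ex s t' g ≤ Ex s t g := by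
  induction s using Finset.induction_on generalizing g with
  | empty => simp [Ex_empty]
  | insert e s he ih =>
    have ht0 : ∀ x ∈ s, 0 ≤ t x := fun x hx => ht x (Finset.mem_insert_of_mem hx)
    have htt0 : ∀ x ∈ s, t x ≤ t' x := fun x hx => htt x (Finset.mem_insert_of_mem hx)
    have hg' : Antitone fun ω : Finset E => g (insert e ω) :=
      fun a b hab => hg (Finset.insert_subset_insert e hab)
    have h1 := ih ht0 htt0 hg
    have h2 := ih ht0 htt0 hg'
    have h3 : Ex s t (fun ω => g (insert e ω)) ≤ Ex s t g :=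
      Ex_mono ht0 fun ω _ => hg (Finset.subset_insert e ω)
    have hte := ht e (Finset.mem_insert_self e s)
    have htte := htt e (Finset.mem_insert_self e s)
    have h4 : Real.exp (-t' e) ≤ Real.exp (-t e) := Real.exp_le_exp.2 (by linarith)
    have h5 : 0 ≤ 1 - Real.exp (-t' e) := one_sub_exp_nonneg (by linarith)
    have h6 : 0 < Real.exp (-t' e) := Real.exp_pos _
    rw [Ex_insert he, Ex_insert he]
    nlinarith [mul_le_mul_of_nonneg_left h1 h6.le, mul_le_mul_of_nonneg_left h2 h5,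
      mul_nonneg (sub_nonneg.2 h4) (sub_nonneg.2 h3)]

lemma Ex_add_single {s : Finset E} {e : E} (he : e ∈ s) (t : E → ℝ) (x : ℝ)
    (g : Finset E → ℝ) :
    Ex s (fun a => t a + if a = e then x else 0) g
      = Real.exp (-x) * Ex s t g + (1 - Real.exp (-x)) * Ex s t (fun ω => g (insert e ω)) := by
  have hc : ∀ F : Finset E → ℝ,
      Ex (s.erase e) (fun a => t a + if a = e then x else 0) F = Ex (s.erase e) t F := by
    intro F
    refine Ex_congr_t F fun a ha => ?_
    simp [(Finset.mem_erase.1 ha).1]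
  rw [Ex_erase he, Ex_erase he t g, Ex_erase he t (fun ω => g (insert e ω)), hc, hc]
  simp only [if_true, Finset.insert_idem]
  rw [neg_add, Real.exp_add]
  ring

lemma sprinkle_aux {s : Finset E} {t : E → ℝ} (ht : ∀ e ∈ s, 0 ≤ t e) {σ : E → ℝ}
    {g : Finset E → ℝ} (hg : Antitone g) (m : ℝ) (X : Finset E) (hX : X ⊆ s)
    (hσ : ∀ e ∈ X, 0 ≤ σ e) (hm : ∀ e ∈ X, Ex s t (fun ω => g (insert e ω)) ≤ m) :
    Ex s (fun a => t a + if a ∈ X then σ a else 0) g
      ≤ Real.exp (-∑ e ∈ X, σ e) * Ex s t g + (1 - Real.exp (-∑ e ∈ X, σ e)) * m := by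
  induction X using Finset.induction_on with
  | empty => simp
  | insert f X hf ih =>
    have hXs : X ⊆ s := fun a ha => hX (Finset.mem_insert_of_mem ha)
    have hfs : f ∈ s := hX (Finset.mem_insert_self f X)
    have hσX : ∀ e ∈ X, 0 ≤ σ e := fun e he => hσ e (Finset.mem_insert_of_mem he)
    have ih' := ih hXs hσX fun e he => hm e (Finset.mem_insert_of_mem he)
    have hfun : (fun a => t a + if a ∈ insert f X then σ a else 0)
        = fun a => (t a + if a ∈ X then σ a else 0) + if a = f then σ f else 0 := by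
      funext a
      by_cases h : a = f
      · subst h; simp [hf]
      · simp [h]
    have hg' : Antitone fun ω : Finset E => g (insert f ω) :=
      fun a b hab => hg (Finset.insert_subset_insert f hab)
    have h2 : Ex s (fun a => t a + if a ∈ X then σ a else 0) (fun ω => g (insert f ω)) ≤ m := by
      refine le_trans (Ex_anti ht (fun e _ => ?_) hg') (hm f (Finset.mem_insert_self f X))
      split_ifs with h
      · linarith [hσX e h]
      · linarith
    rw [hfun, Ex_add_single hfs, Finset.sum_insert hf, neg_add, Real.exp_add]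
    have h5 : 0 ≤ 1 - Real.exp (-σ f) := one_sub_exp_nonneg (hσ f (Finset.mem_insert_self f X))
    have h6 : 0 < Real.exp (-σ f) := Real.exp_pos _
    nlinarith [mul_le_mul_of_nonneg_left ih' h6.le, mul_le_mul_of_nonneg_left h2 h5]

/-- Sprinkled intensity on a set of edges may be concentrated on one edge of the set. -/
lemma sprinkle {s : Finset E} {t : E → ℝ} (ht : ∀ e ∈ s, 0 ≤ t e) {σ : E → ℝ}
    {g : Finset E → ℝ} (hg : Antitone g) {X : Finset E} (hX : X ⊆ s) (hne : X.Nonempty)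
    (hσ : ∀ e ∈ X, 0 ≤ σ e) {l : ℝ} (hl : l ≤ ∑ e ∈ X, σ e) :
    ∃ e ∈ X, Ex s (fun a => t a + if a ∈ X then σ a else 0) g
      ≤ Ex s (fun a => t a + if a = e then l else 0) g := by
  obtain ⟨e, he, hmax⟩ := Finset.exists_max_image X
    (fun e => Ex s t (fun ω => g (insert e ω))) hne
  refine ⟨e, he, le_trans (sprinkle_aux ht hg _ X hX hσ hmax) ?_⟩
  rw [Ex_add_single (hX he)]
  have h3 : Ex s t (fun ω => g (insert e ω)) ≤ Ex s t g :=
    Ex_mono ht fun ω _ => hg (Finset.subset_insert e ω)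
  have h4 : Real.exp (-∑ e ∈ X, σ e) ≤ Real.exp (-l) := Real.exp_le_exp.2 (by linarith)
  nlinarith [mul_nonneg (sub_nonneg.2 h4) (sub_nonneg.2 h3)]

lemma Ex_single_factor {s : Finset E} {e : E} (he : e ∈ s) (t : E → ℝ) {H : Finset E → ℝ}
    (hH : ∀ ω, H (insert e ω) = H ω) (u0 u1 : ℝ) :
    Ex s t (fun ω => H ω * if e ∈ ω then u1 else u0)
      = Ex (s.erase e) t H * (Real.exp (-t e) * u0 + (1 - Real.exp (-t e)) * u1) := by
  rw [Ex_erase he]
  have h1 : Ex (s.erase e) t (fun ω => H ω * if e ∈ ω then u1 else u0)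
      = Ex (s.erase e) t (fun ω => H ω * u0) := by
    refine Ex_congr fun ω hω => ?_
    have : e ∉ ω := fun h => Finset.notMem_erase e s (hω h)
    simp [this]
  have h2 : Ex (s.erase e) t (fun ω => H (insert e ω) * if e ∈ insert e ω then u1 else u0)
      = Ex (s.erase e) t (fun ω => H ω * u1) := by
    refine Ex_congr fun ω _ => ?_
    simp [hH]
  rw [h1, h2, Ex_mul, Ex_mul]; ring

/-- Comparison of product factors on edges that the rest of the functional ignores. -/
lemma Ex_prod_le {s : Finset E} {t : E → ℝ} (ht : ∀ e ∈ s, 0 ≤ t e) {u0 u1 v0 v1 : E → ℝ}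
    (hu0 : ∀ e, 0 ≤ u0 e) (hu1 : ∀ e, 0 ≤ u1 e) (hv0 : ∀ e, 0 ≤ v0 e) (hv1 : ∀ e, 0 ≤ v1 e)
    (X : Finset E) (hX : X ⊆ s)
    (huv : ∀ e ∈ X, Real.exp (-t e) * u0 e + (1 - Real.exp (-t e)) * u1 e
      ≤ Real.exp (-t e) * v0 e + (1 - Real.exp (-t e)) * v1 e)
    {F : Finset E → ℝ} (hF0 : ∀ ω, 0 ≤ F ω) (hF : ∀ e ∈ X, ∀ ω, F (insert e ω) = F ω) :
    Ex s t (fun ω => F ω * ∏ e ∈ X, if e ∈ ω then u1 e else u0 e)
      ≤ Ex s t (fun ω => F ω * ∏ e ∈ X, if e ∈ ω then v1 e else v0 e) := by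
  induction X using Finset.induction_on generalizing F with
  | empty => simp
  | insert f X hf ih =>
    have hXs : X ⊆ s := fun a ha => hX (Finset.mem_insert_of_mem ha)
    have hfs : f ∈ s := hX (Finset.mem_insert_self f X)
    have hte : ∀ e ∈ s.erase f, 0 ≤ t e := fun e he => ht e (Finset.mem_of_mem_erase he)
    have hH : ∀ ω, F (insert f ω) * (∏ e ∈ X, if e ∈ insert f ω then u1 e else u0 e)
        = F ω * ∏ e ∈ X, if e ∈ ω then u1 e else u0 e := by
      intro ω
      rw [hF f (Finset.mem_insert_self f X)]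
      refine congrArg _ (Finset.prod_congr rfl fun e he => ?_)
      have : e ≠ f := fun h => hf (h ▸ he)
      simp [this]
    have hH0 : ∀ ω, 0 ≤ F ω * ∏ e ∈ X, if e ∈ ω then u1 e else u0 e := fun ω =>
      mul_nonneg (hF0 ω) (Finset.prod_nonneg fun e _ => by split_ifs <;> simp [hu0, hu1])
    have step1 : Ex s t (fun ω => (F ω * ∏ e ∈ X, if e ∈ ω then u1 e else u0 e)
          * if f ∈ ω then u1 f else u0 f)
        ≤ Ex s t (fun ω => (F ω * ∏ e ∈ X, if e ∈ ω then u1 e else u0 e)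
          * if f ∈ ω then v1 f else v0 f) := by
      rw [Ex_single_factor hfs t hH, Ex_single_factor hfs t hH]
      exact mul_le_mul_of_nonneg_left (huv f (Finset.mem_insert_self f X)) (Ex_nonneg hte hH0)
    have step2 := ih hXs (fun e he => huv e (Finset.mem_insert_of_mem he))
      (F := fun ω => F ω * if f ∈ ω then v1 f else v0 f)
      (fun ω => mul_nonneg (hF0 ω) (by split_ifs <;> simp [hv0, hv1]))
      (fun e he ω => by
        have : f ≠ e := fun h => hf (h ▸ he)
        simp [hF e (Finset.mem_insert_of_mem he), this])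
    calc Ex s t (fun ω => F ω * ∏ e ∈ insert f X, if e ∈ ω then u1 e else u0 e)
        = Ex s t (fun ω => (F ω * ∏ e ∈ X, if e ∈ ω then u1 e else u0 e)
          * if f ∈ ω then u1 f else u0 f) := by
          refine Ex_congr fun ω _ => ?_
          rw [Finset.prod_insert hf]; ring
      _ ≤ _ := step1
      _ = Ex s t (fun ω => (F ω * if f ∈ ω then v1 f else v0 f)
          * ∏ e ∈ X, if e ∈ ω then u1 e else u0 e) := by
          refine Ex_congr fun ω _ => ?_
          ring
      _ ≤ _ := step2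
      _ = _ := by
          refine Ex_congr fun ω _ => ?_
          rw [Finset.prod_insert hf]; ring

end Pool.Agent.P.MP_7c03a7_pr
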