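import Pool.Agent.P.MP_7c03a7_pr.Ex
import Pool.Agent.P.MP_7c03a7_pr.Count

/-! The scaffold tree, the Peierls argument and the finite volume bound. -/

namespace Pool.Agent.P.MP_7c03a7_pr

open Finset
open scoped Classical

variable {V E : Type*}

lemma scaffold_aux (src tgt : E → V) (s : Finset E) {c : E → ℝ} (hc : ∀ e ∈ s, 0 ≤ c e)
    {φ : ℕ → ℝ} {ρ : ℝ} (hφ : Prof φ ρ) {L : Finset V}
    (hiso : ∀ S : Finset V, S.Nonempty → S ⊆ L → φ S.card ^ 2 ≤ bd src tgt s c S)
    {K l : ℝ} (hK : 0 ≤ K) (hl0 : 0 ≤ l) (hl : l ≤ K * (1 - 1 / ρ) * φ 1)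
    {g : Finset E → ℝ} (hg : Antitone g) :
    ∀ n : ℕ, ∀ B : V → Finset V, Good L B → size L B < n → ∀ t : E → ℝ, (∀ e ∈ s, 0 ≤ t e) →
      ∃ T ⊆ s, (∀ S : Finset V, S.Nonempty → Meas B S → ∃ e ∈ T, Cross src tgt S e) ∧
        Ex s (fun e => t e + K * c e * (ht φ B (src e) + ht φ B (tgt e))) g
          ≤ Ex s (fun e => t e + if e ∈ T then l else 0) g := by
  have hρ : 0 < ρ := lt_trans one_pos hφ.one_lt
  have hη : 0 < 1 - 1 / ρ := by
    have : 1 / ρ < 1 := (div_lt_one hρ).2 hφ.one_lt
    linarith
  intro n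
  induction n with
  | zero => intro B _ h; omega
  | succ n ih =>
    intro B hB hn t ht0
    by_cases hne : ∃ x, (B x).Nonempty
    swap
    · refine ⟨∅, Finset.empty_subset _, fun S hS hm => ?_, ?_⟩
      · obtain ⟨x, hx⟩ := hS
        exact absurd ⟨x, (hm x hx).1⟩ hne
      · refine Ex_anti (fun e he => by simpa using ht0 e he) (fun e he => ?_) hg
        have := mul_nonneg (mul_nonneg hK (hc e he))
          (add_nonneg (ht_nonneg hφ B (src e)) (ht_nonneg hφ B (tgt e)))
        simpa using this
    obtain ⟨D, hDne, hDL, hDht, -, hDm⟩ := merge_edge src tgt hφ hB hne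
    set f := φ D.card with hf
    have hf0 : 0 < f := hφ.pos _ hDne.card_pos
    have hf1 : φ 1 ≤ f := hφ.mono _ _ le_rfl hDne.card_pos
    set X := s.filter (Cross src tgt D) with hX
    have hfb : f ^ 2 ≤ ∑ e ∈ X, c e := hiso D hDne hDL
    have hXne : X.Nonempty := by
      by_contra h
      rw [Finset.not_nonempty_iff_eq_empty.1 h, Finset.sum_empty] at hfb
      exact absurd hfb (not_le.2 (by positivity))
    have hXs : X ⊆ s := Finset.filter_subset _ _
    let h' : V → ℝ := fun z => if z ∈ D then ht φ B z / ρ else ht φ B z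
    have h'0 : ∀ z, 0 ≤ h' z := fun z => by
      have := ht_nonneg hφ B z
      simp only [h']; split_ifs <;> positivity
    have h'1 : ∀ z, h' z ≤ ht φ B z := fun z => by
      simp only [h']; split_ifs
      · exact div_le_self (ht_nonneg hφ B z) hφ.one_lt.le
      · exact le_rfl
    have h'2 : ∀ z ∈ D, h' z ≤ ht φ B z / ρ := fun z hz => by
      simp only [h', if_pos hz]; exact le_rfl
    let t1 : E → ℝ := fun e => t e + K * c e * (h' (src e) + h' (tgt e))
    have ht1 : ∀ e ∈ s, 0 ≤ t1 e := fun e he =>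
      add_nonneg (ht0 e he) (mul_nonneg (mul_nonneg hK (hc e he)) (add_nonneg (h'0 _) (h'0 _)))
    let σ : E → ℝ := fun e => K * c e * ((1 - 1 / ρ) / f)
    have hσ : ∀ e ∈ X, 0 ≤ σ e := fun e he =>
      mul_nonneg (mul_nonneg hK (hc e (hXs he))) (div_nonneg hη.le hf0.le)
    have hlσ : l ≤ ∑ e ∈ X, σ e := by
      have e1 : ∑ e ∈ X, σ e = K * ((1 - 1 / ρ) / f) * ∑ e ∈ X, c e := by
        rw [Finset.mul_sum]
        exact Finset.sum_congr rfl fun e _ => by simp only [σ]; ring
      have e2 : K * ((1 - 1 / ρ) / f) * f ^ 2 = K * (1 - 1 / ρ) * f := by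
        field_simp
      have e3 : K * ((1 - 1 / ρ) / f) * f ^ 2 ≤ K * ((1 - 1 / ρ) / f) * ∑ e ∈ X, c e :=
        mul_le_mul_of_nonneg_left hfb (mul_nonneg hK (div_nonneg hη.le hf0.le))
      have e4 : K * (1 - 1 / ρ) * φ 1 ≤ K * (1 - 1 / ρ) * f :=
        mul_le_mul_of_nonneg_left hf1 (mul_nonneg hK hη.le)
      linarith
    obtain ⟨e, heX, he⟩ := sprinkle ht1 hg hXs hXne hσ hlσ
    obtain ⟨B', hB', hsz, hle, hle', hmeas⟩ := hDm e (Finset.mem_filter.1 heX).2
    have ht2 : ∀ a ∈ s, 0 ≤ t a + if a = e then l else 0 := fun a ha => by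
      have := ht0 a ha
      split_ifs <;> linarith
    obtain ⟨T, hTs, hTc, hT⟩ := ih B' hB' (by omega) (fun a => t a + if a = e then l else 0) ht2
    refine ⟨insert e T, Finset.insert_subset (hXs heX) hTs, fun S hS hm => ?_, ?_⟩
    · by_cases hcr : Cross src tgt S e
      · exact ⟨e, Finset.mem_insert_self _ _, hcr⟩
      · obtain ⟨a, ha, hac⟩ := hTc S hS (hmeas S hm hcr)
        exact ⟨a, Finset.mem_insert_of_mem ha, hac⟩
    · have hh' : ∀ z, ht φ B' z ≤ h' z := fun z => by
        simp only [h']; split_ifs with hz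
        · exact hle' z hz
        · exact hle z
      calc Ex s (fun e => t e + K * c e * (ht φ B (src e) + ht φ B (tgt e))) g
          ≤ Ex s (fun a => t1 a + if a ∈ X then σ a else 0) g := by
            refine Ex_anti (fun a ha => ?_) (fun a ha => ?_) hg
            · have := ht1 a ha
              split_ifs with h
              · linarith [hσ a h]
              · linarith
            · have h1 := ht_drop (src := src) (tgt := tgt) hDht h'1 h'2 a
              have h2 := mul_le_mul_of_nonneg_left h1 (mul_nonneg hK (hc a ha))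
              have h3 : (a ∈ X) ↔ Cross src tgt D a := by simp [hX, ha]
              simp only [t1, σ]
              by_cases h : Cross src tgt D a
              · rw [if_pos h] at h2
                rw [if_pos (h3.2 h)]
                linarith
              · rw [if_neg h] at h2
                rw [if_neg (fun h4 => h (h3.1 h4))]
                linarith
        _ ≤ Ex s (fun a => t1 a + if a = e then l else 0) g := he
        _ ≤ Ex s (fun a => (t a + if a = e then l else 0)
              + K * c a * (ht φ B' (src a) + ht φ B' (tgt a))) g := by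
            refine Ex_anti (fun a ha => ?_) (fun a ha => ?_) hg
            · exact add_nonneg (ht2 a ha) (mul_nonneg (mul_nonneg hK (hc a ha))
                (add_nonneg (ht_nonneg hφ _ _) (ht_nonneg hφ _ _)))
            · have h2 := mul_le_mul_of_nonneg_left (add_le_add (hh' (src a)) (hh' (tgt a)))
                (mul_nonneg hK (hc a ha))
              simp only [t1]
              linarith
        _ ≤ _ := hT
        _ ≤ _ := by
            refine Ex_anti (fun a ha => ?_) (fun a ha => ?_) hg
            · have := ht0 a ha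
              split_ifs <;> linarith
            · by_cases h1 : a = e
              · subst h1
                simp only [Finset.mem_insert_self, if_true]
                split_ifs <;> linarith
              · simp [h1]

/-- The event that some set containing `o` has no open edge on its boundary. -/
def Trapped (src tgt : E → V) (L : Finset V) (o : V) (ω : Finset E) : Prop :=
  ∃ A ⊆ L, o ∈ A ∧ ∀ e ∈ ω, ¬ Cross src tgt A e

lemma trapped_anti (src tgt : E → V) (L : Finset V) (o : V) :
    Antitone fun ω : Finset E => if Trapped src tgt L o ω then (1 : ℝ) else 0 := by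
  intro a b hab
  by_cases h : Trapped src tgt L o b
  · obtain ⟨A, h1, h2, h3⟩ := h
    have ha : Trapped src tgt L o a := ⟨A, h1, h2, fun e he => h3 e (hab he)⟩
    have hb : Trapped src tgt L o b := ⟨A, h1, h2, h3⟩
    simp [ha, hb]
  · simp only [h, if_false]
    split_ifs <;> norm_num

/-- Combinatorial irreducibility with respect to an edge set `H`. -/
def Linked (src tgt : E → V) (L : Finset V) (o : V) (H : Finset E) (A : Finset V) : Prop :=
  o ∈ A ∧ ∀ D : Finset V, D.Nonempty → D ⊆ L → D ≠ A → (D ⊆ A ∨ Disjoint D A) →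
    ∃ e ∈ H, Cross src tgt D e ∧ ¬ Cross src tgt A e

lemma exists_linked (src tgt : E → V) {L : Finset V} {o : V} {T ω : Finset E}
    (hT : ∀ S : Finset V, S.Nonempty → S ⊆ L → ∃ e ∈ T, Cross src tgt S e)
    (h : Trapped src tgt L o ω) :
    ∃ A ⊆ L, Linked src tgt L o (ω ∪ T) A ∧ ∀ e ∈ ω, ¬ Cross src tgt A e := by
  obtain ⟨A₀, h1, h2, h3⟩ := h
  have hne : (L.powerset.filter fun A => o ∈ A ∧ ∀ e ∈ ω, ¬ Cross src tgt A e).Nonempty :=
    ⟨A₀, Finset.mem_filter.2 ⟨Finset.mem_powerset.2 h1, h2, h3⟩⟩
  obtain ⟨A, hA, hmin⟩ := Finset.exists_min_image _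
    (fun A => (T.filter (Cross src tgt A)).card) hne
  obtain ⟨hAL, hoA, hAω⟩ := Finset.mem_filter.1 hA
  have hAL' : A ⊆ L := Finset.mem_powerset.1 hAL
  -- an admissible set whose crossing edges form a proper subset gives a contradiction
  have contra : ∀ A' : Finset V, A' ⊆ L → o ∈ A' →
      (∀ e ∈ ω ∪ T, Cross src tgt A' e → Cross src tgt A e) →
      (∃ e ∈ T, Cross src tgt A e ∧ ¬ Cross src tgt A' e) → False := by
    intro A' a1 a2 a3 a4
    have hm := hmin A' (Finset.mem_filter.2 ⟨Finset.mem_powerset.2 a1, a2, fun e he hc =>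
      hAω e he (a3 e (Finset.mem_union_left _ he) hc)⟩)
    obtain ⟨e, he, b1, b2⟩ := a4
    have : (T.filter (Cross src tgt A')).card < (T.filter (Cross src tgt A)).card := by
      refine Finset.card_lt_card ⟨fun a ha => ?_, fun hs => ?_⟩
      · obtain ⟨c1, c2⟩ := Finset.mem_filter.1 ha
        exact Finset.mem_filter.2 ⟨c1, a3 a (Finset.mem_union_right _ c1) c2⟩
      · exact b2 (Finset.mem_filter.1 (hs (Finset.mem_filter.2 ⟨he, b1⟩))).2
    omega
  refine ⟨A, hAL', ⟨hoA, fun D hDne hDL hDA hD => ?_⟩, hAω⟩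
  by_contra hcon
  push Not at hcon
  rcases hD with hD | hD
  · by_cases hoD : o ∈ D
    · have hne' : (A \ D).Nonempty := by
        rw [Finset.sdiff_nonempty]
        exact fun h => hDA (Finset.Subset.antisymm hD h)
      obtain ⟨e, he, hc⟩ := hT (A \ D) hne' (Finset.sdiff_subset.trans hAL')
      refine contra D hDL hoD hcon ⟨e, he, ?_⟩
      have a1 := hcon e (Finset.mem_union_right _ he)
      have a2 := @hD (src e)
      have a3 := @hD (tgt e)
      unfold Cross at *
      simp only [Finset.mem_sdiff] at hc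
      tauto
    · obtain ⟨e, he, hc⟩ := hT D hDne hDL
      refine contra (A \ D) (Finset.sdiff_subset.trans hAL') (Finset.mem_sdiff.2 ⟨hoA, hoD⟩)
        (fun a ha => ?_) ⟨e, he, ?_⟩
      · have a1 := hcon a ha
        have a2 := @hD (src a)
        have a3 := @hD (tgt a)
        unfold Cross at *
        simp only [Finset.mem_sdiff]
        tauto
      · have a1 := hcon e (Finset.mem_union_right _ he)
        have a2 := @hD (src e)
        have a3 := @hD (tgt e)
        unfold Cross at *
        simp only [Finset.mem_sdiff]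
        tauto
  · obtain ⟨e, he, hc⟩ := hT D hDne hDL
    have hd := Finset.disjoint_left.1 hD
    refine contra (A ∪ D) (Finset.union_subset hAL' hDL) (Finset.mem_union_left _ hoA)
      (fun a ha => ?_) ⟨e, he, ?_⟩
    · have a1 := hcon a ha
      have a2 := @hd (src a)
      have a3 := @hd (tgt a)
      unfold Cross at *
      simp only [Finset.mem_union]
      tauto
    · have a1 := hcon e (Finset.mem_union_right _ he)
      have a2 := @hd (src e)
      have a3 := @hd (tgt e)
      unfold Cross at *
      simp only [Finset.mem_union]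
      tauto

lemma edge_ineq {K l x : ℝ} (hK : 0 ≤ K) (hl : K ≤ l * Real.exp (-K)) (hx : 0 ≤ x) :
    Real.exp (-(l * x)) * 1 + (1 - Real.exp (-(l * x))) * 0
      ≤ Real.exp (-(l * x)) * Real.exp (-(K * x))
        + (1 - Real.exp (-(l * x))) * Real.exp (-(K * (x + 1))) := by
  set q := Real.exp (-K) with hq
  have hq0 : 0 < q := Real.exp_pos _
  have hq1 : q ≤ 1 := Real.exp_le_one_iff.2 (by linarith)
  have hconv : Real.exp ((1 - q) * (-(l * x)) + q * 0) ≤ (1 - q) * Real.exp (-(l * x))
      + q * Real.exp 0 := by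
    have := convexOn_exp.2 (Set.mem_univ (-(l * x))) (Set.mem_univ 0) (sub_nonneg.2 hq1) hq0.le
      (by ring)
    simpa using this
  have h1 : Real.exp (-(K * (x + 1))) = Real.exp (-(K * x)) * q := by
    rw [hq, ← Real.exp_add]; congr 1; ring
  have h2 : Real.exp (-(l * x)) ≤ Real.exp (-(K * x)) * Real.exp ((1 - q) * (-(l * x)) + q * 0) := by
    rw [← Real.exp_add]
    refine Real.exp_le_exp.2 ?_
    nlinarith [mul_le_mul_of_nonneg_right hl hx]
  have h3 := mul_le_mul_of_nonneg_left hconv (Real.exp_pos (-(K * x))).le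
  rw [h1]
  rw [Real.exp_zero] at h3
  nlinarith

lemma peierls (src tgt : E → V) (s : Finset E) {c : E → ℝ} (hc : ∀ e ∈ s, 0 ≤ c e)
    {φ : ℕ → ℝ} {ρ : ℝ} (hφ : Prof φ ρ) {L : Finset V} (o : V)
    (hiso : ∀ S : Finset V, S.Nonempty → S ⊆ L → φ S.card ^ 2 ≤ bd src tgt s c S)
    {K u l : ℝ} (hK : 2 ≤ K * (1 - 1 / ρ)) (hu : 1 ≤ u * (1 - 1 / ρ) * K) (hK0 : 0 ≤ K)
    (hl0 : 0 ≤ l) (hl : 2 * K / φ 1 ≤ l * Real.exp (-(2 * K / φ 1)))
    {T : Finset E} (hTs : T ⊆ s)
    (hT : ∀ S : Finset V, S.Nonempty → S ⊆ L → ∃ e ∈ T, Cross src tgt S e) :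
    Ex s (fun e => l * (c e + if e ∈ T then 1 else 0))
      (fun ω => if Trapped src tgt L o ω then (1 : ℝ) else 0) ≤ u / φ 1 := by
  set c' : E → ℝ := fun e => c e + if e ∈ T then 1 else 0 with hc'
  set K0 := 2 * K / φ 1 with hK0def
  have hφ1 := hφ.pos 1 le_rfl
  have hK00 : 0 ≤ K0 := by positivity
  have hc'0 : ∀ e ∈ s, 0 ≤ c' e := fun e he => by
    have := hc e he
    simp only [hc']; split_ifs <;> linarith
  have ht0 : ∀ e ∈ s, 0 ≤ l * c' e := fun e he => mul_nonneg hl0 (hc'0 e he)
  let F : Finset V → Finset E → ℝ := fun A ω =>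
    if Linked src tgt L o (ω ∪ T) A then 1 else 0
  have hF0 : ∀ A ω, 0 ≤ F A ω := fun A ω => by
    simp only [F]; split_ifs <;> norm_num
  have hF : ∀ A, ∀ e ∈ s.filter (Cross src tgt A), ∀ ω, F A (insert e ω) = F A ω := by
    intro A e he ω
    have hce := (Finset.mem_filter.1 he).2
    have : Linked src tgt L o (insert e ω ∪ T) A ↔ Linked src tgt L o (ω ∪ T) A := by
      unfold Linked
      refine and_congr_right fun _ => forall_congr' fun D => forall_congr' fun _ =>
        forall_congr' fun _ => forall_congr' fun _ => forall_congr' fun _ => ⟨?_, ?_⟩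
      · rintro ⟨a, ha, h1, h2⟩
        refine ⟨a, ?_, h1, h2⟩
        rw [Finset.insert_union, Finset.mem_insert] at ha
        rcases ha with rfl | ha
        · exact absurd hce h2
        · exact ha
      · rintro ⟨a, ha, h1, h2⟩
        refine ⟨a, ?_, h1, h2⟩
        rw [Finset.insert_union]
        exact Finset.mem_insert_of_mem ha
    simp only [F, this]
  calc Ex s (fun e => l * c' e) (fun ω => if Trapped src tgt L o ω then (1 : ℝ) else 0)
      ≤ Ex s (fun e => l * c' e) (fun ω => ∑ A ∈ L.powerset,
          F A ω * ∏ e ∈ s.filter (Cross src tgt A), if e ∈ ω then (0 : ℝ) else 1) := by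
        refine Ex_mono ht0 fun ω _ => ?_
        have hnn : ∀ A ∈ L.powerset, 0 ≤ F A ω * ∏ e ∈ s.filter (Cross src tgt A),
            if e ∈ ω then (0 : ℝ) else 1 := fun A _ =>
          mul_nonneg (hF0 A ω) (Finset.prod_nonneg fun e _ => by split_ifs <;> norm_num)
        split_ifs with h
        · obtain ⟨A, hAL, hA1, hA2⟩ := exists_linked src tgt hT h
          refine le_trans ?_ (Finset.single_le_sum hnn (Finset.mem_powerset.2 hAL))
          have : (∏ e ∈ s.filter (Cross src tgt A), if e ∈ ω then (0 : ℝ) else 1) = 1 :=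
            Finset.prod_eq_one fun e he =>
              if_neg fun h' => hA2 e h' (Finset.mem_filter.1 he).2
          simp only [F, if_pos hA1, this]; norm_num
        · exact Finset.sum_nonneg hnn
    _ = ∑ A ∈ L.powerset, Ex s (fun e => l * c' e) (fun ω =>
          F A ω * ∏ e ∈ s.filter (Cross src tgt A), if e ∈ ω then (0 : ℝ) else 1) :=
        Ex_sum _ _ _ _
    _ ≤ ∑ A ∈ L.powerset, Ex s (fun e => l * c' e) (fun ω =>
          F A ω * ∏ e ∈ s.filter (Cross src tgt A),
            if e ∈ ω then Real.exp (-(K0 * (c' e + 1))) else Real.exp (-(K0 * c' e))) := by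
        refine Finset.sum_le_sum fun A _ => ?_
        exact Ex_prod_le ht0 (u0 := fun _ => 1) (u1 := fun _ => 0)
          (v0 := fun e => Real.exp (-(K0 * c' e))) (v1 := fun e => Real.exp (-(K0 * (c' e + 1))))
          (fun _ => zero_le_one) (fun _ => le_rfl) (fun _ => (Real.exp_pos _).le)
          (fun _ => (Real.exp_pos _).le) _ (Finset.filter_subset _ _)
          (fun e he => edge_ineq hK00 hl (hc'0 e (Finset.mem_filter.1 he).1)) (hF0 A) (hF A)
    _ = Ex s (fun e => l * c' e) (fun ω => ∑ A ∈ L.powerset,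
          F A ω * ∏ e ∈ s.filter (Cross src tgt A),
            if e ∈ ω then Real.exp (-(K0 * (c' e + 1))) else Real.exp (-(K0 * c' e))) :=
        (Ex_sum _ _ _ _).symm
    _ ≤ Ex s (fun e => l * c' e) (fun _ => u / φ 1) := by
        refine Ex_mono ht0 fun ω hω => ?_
        set w : E → ℝ := fun e => c' e + if e ∈ ω then 1 else 0 with hw
        have hcw : ∀ e, c e ≤ w e := fun e => by
          simp only [hw, hc']; split_ifs <;> linarith
        have hw0 : ∀ e ∈ s, 0 ≤ w e := fun e he => (hc e he).trans (hcw e)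
        have hisow : ∀ S : Finset V, S.Nonempty → S ⊆ L → φ S.card ^ 2 ≤ bd src tgt s w S :=
          fun S h1 h2 => (hiso S h1 h2).trans (Finset.sum_le_sum fun e _ => hcw e)
        refine le_trans (Finset.sum_le_sum fun A _ => ?_) (count_cuts src tgt s hw0 hφ o hisow hK hu)
        by_cases hA : Linked src tgt L o (ω ∪ T) A
        · have hv : Valid src tgt s w L o A := by
            refine ⟨hA.1, fun D h1 h2 h3 h4 => ?_⟩
            obtain ⟨e, he, he1, he2⟩ := hA.2 D h1 h2 h3 h4
            have hes : e ∈ s := Finset.union_subset hω hTs he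
            have h5 : 1 ≤ w e := by
              have := hc e hes
              simp only [hw, hc']
              rcases Finset.mem_union.1 he with h | h
              · rw [if_pos h]; split_ifs <;> linarith
              · rw [if_pos h]; split_ifs <;> linarith
            exact h5.trans (Finset.single_le_sum (f := w)
              (fun a ha => hw0 a (Finset.mem_filter.1 ha).1) (Finset.mem_filter.2 ⟨hes, he1, he2⟩))
          simp only [F, if_pos hA, if_pos hv, one_mul]
          apply le_of_eq
          unfold bd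
          rw [Finset.mul_sum, ← Finset.sum_neg_distrib, Real.exp_sum]
          refine Finset.prod_congr rfl fun e _ => ?_
          simp only [hw]
          split_ifs <;> simp [hK0def]
        · simp only [F, if_neg hA, zero_mul]
          split_ifs
          · exact (Real.exp_pos _).le
          · exact le_rfl
    _ = u / φ 1 := Ex_const _ _ _

/-- The finite volume bound, uniform in the volume. -/
theorem finite_bound {φ : ℕ → ℝ} {ρ : ℝ} (hφ : Prof φ ρ) :
    ∃ l0 : ℝ, ∀ (src tgt : E → V) (s : Finset E) (c : E → ℝ) (L : Finset V) (o : V) (lam : ℝ),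
      (∀ e ∈ s, 0 ≤ c e) →
      (∀ S : Finset V, S.Nonempty → S ⊆ L → φ S.card ^ 2 ≤ bd src tgt s c S) → l0 ≤ lam →
      Ex s (fun e => lam * c e) (fun ω => if Trapped src tgt L o ω then (1 : ℝ) else 0)
        ≤ 1 / 2 := by
  have hρ : 0 < ρ := lt_trans one_pos hφ.one_lt
  have hη : 0 < 1 - 1 / ρ := by
    have : 1 / ρ < 1 := (div_lt_one hρ).2 hφ.one_lt
    linarith
  set η := 1 - 1 / ρ with hηdef
  set a := φ 1 with ha
  have ha0 : 0 < a := hφ.pos 1 le_rfl
  set K := 2 / η + 2 / (η * a) with hKdef
  have hK0 : 0 < K := by positivity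
  have hK : 2 ≤ K * η := by
    have : K * η = 2 + 2 / a := by rw [hKdef]; field_simp
    have : 0 < 2 / a := by positivity
    linarith
  have hu : 1 ≤ a / 2 * η * K := by
    have : a / 2 * η * K = a + 1 := by rw [hKdef]; field_simp
    linarith
  set l := 2 * K / a * Real.exp (2 * K / a) with hldef
  have hl0 : 0 < l := by positivity
  have hl : 2 * K / a ≤ l * Real.exp (-(2 * K / a)) := by
    rw [hldef, mul_assoc, ← Real.exp_add]; simp
  set K' := l / (η * a) with hK'
  have hK'0 : 0 < K' := by positivity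
  have hlK' : l ≤ K' * η * a := by
    apply le_of_eq; rw [hK']; field_simp
  refine ⟨l + 2 * K' / a, fun src tgt s c L o lam hc hiso hlam => ?_⟩
  obtain ⟨T, hTs, hT, hEx⟩ := scaffold_aux src tgt s hc hφ hiso hK'0.le hl0.le hlK'
    (trapped_anti src tgt L o) _ (init L) (good_init L) (Nat.lt_succ_self _)
    (fun e => l * c e) (fun e he => mul_nonneg hl0.le (hc e he))
  have hP := peierls src tgt s hc hφ o hiso hK hu hK0.le hl0.le hl hTs
    (fun S h1 h2 => hT S h1 (meas_init h2))
  calc _ ≤ Ex s (fun e => l * c e + K' * c e * (ht φ (init L) (src e) + ht φ (init L) (tgt e)))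
        (fun ω => if Trapped src tgt L o ω then (1 : ℝ) else 0) := by
        refine Ex_anti (fun e he => ?_) (fun e he => ?_) (trapped_anti src tgt L o)
        · exact add_nonneg (mul_nonneg hl0.le (hc e he)) (mul_nonneg (mul_nonneg hK'0.le (hc e he))
            (add_nonneg (ht_nonneg hφ _ _) (ht_nonneg hφ _ _)))
        · have h1 := mul_le_mul_of_nonneg_left
            (add_le_add (ht_le hφ (init L) (src e)) (ht_le hφ (init L) (tgt e)))
            (mul_nonneg hK'0.le (hc e he))
          have h2 := mul_le_mul_of_nonneg_right hlam (hc e he)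
          have h3 : (l + 2 * K' / a) * c e = l * c e + K' * c e * (1 / a + 1 / a) := by ring
          linarith
    _ ≤ _ := hEx
    _ = Ex s (fun e => l * (c e + if e ∈ T then 1 else 0))
        (fun ω => if Trapped src tgt L o ω then (1 : ℝ) else 0) := by
        refine Ex_congr_t _ fun e _ => ?_
        split_ifs <;> ring
    _ ≤ a / 2 / a := hP
    _ = 1 / 2 := by field_simp

end Pool.Agent.P.MP_7c03a7_pr
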