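import Pool.Agent.P.MP_7c03a7_pr.Defs
import Pool.Agent.P.MP_7c03a7_pr.Finite

/-! From the finite volume bound to the infinite model. -/

namespace Pool.Agent.P.MP_7c03a7_pr

open MeasureTheory ProbabilityTheory Finset
open scoped NNReal ENNReal Classical

variable {Γ : Type*}

/-- One endpoint of a pair. -/
noncomputable def src (e : Pairs Γ) : Γ := e.1.out.1

/-- The other endpoint of a pair. -/
noncomputable def tgt (e : Pairs Γ) : Γ := e.1.out.2

lemma pair_eq (e : Pairs Γ) : e.1 = s(src e, tgt e) := by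
  unfold src tgt
  exact (Quot.out_eq e.1).symm

lemma cross_of_eq {e : Pairs Γ} {g h : Γ} (he : e.1 = s(g, h)) {S : Finset Γ} (hg : g ∈ S)
    (hh : h ∉ S) : Cross src tgt S e := by
  rw [pair_eq, Sym2.eq_iff] at he
  unfold Cross
  rcases he with ⟨h1, h2⟩ | ⟨h1, h2⟩
  · rw [h1, h2]; tauto
  · rw [h1, h2]; tauto

lemma adj_of_open {ω : Pairs Γ → ℕ} {e : Pairs Γ} (he : ω e ≠ 0) :
    (graphOf ω).Adj (src e) (tgt e) := by
  unfold graphOf
  rw [SimpleGraph.fromEdgeSet_adj]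
  have hne : src e ≠ tgt e := by
    have := e.2
    rw [pair_eq, Sym2.mk_isDiag_iff] at this
    exact this
  refine ⟨?_, hne⟩
  rw [← pair_eq]
  exact ⟨e.2, he⟩

/-- The probability of an event determined by the open edges of a finite set. -/
lemma measure_le_Ex {ι : Type*} (r : ι → ℝ≥0) (s : Finset ι) (P : Finset ι → Prop) :
    Measure.infinitePi (fun e : ι => poissonMeasure (r e))
        {ω | P (s.filter fun e => ω e ≠ 0)}
      ≤ ENNReal.ofReal (Ex s (fun e => (r e : ℝ)) fun η => if P η then 1 else 0) := by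
  let C : Finset ι → Set (ι → ℕ) := fun η =>
    Set.pi s fun e => if e ∈ η then ({0}ᶜ : Set ℕ) else {0}
  have hsub : {ω : ι → ℕ | P (s.filter fun e => ω e ≠ 0)}
      ⊆ ⋃ η ∈ s.powerset.filter P, C η := by
    intro ω hω
    simp only [Set.mem_iUnion]
    refine ⟨s.filter fun e => ω e ≠ 0,
      Finset.mem_filter.2 ⟨Finset.mem_powerset.2 (Finset.filter_subset _ _), hω⟩, ?_⟩
    intro e he
    have he' : e ∈ s := he
    by_cases h : ω e = 0
    · simp [h]
    · simp [h, he']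
  have h0 : ∀ e, poissonMeasure (r e) {0} = ENNReal.ofReal (Real.exp (-(r e : ℝ))) := by
    intro e
    rw [poissonMeasure_singleton]; simp
  have h1 : ∀ e, poissonMeasure (r e) ({0}ᶜ : Set ℕ)
      = ENNReal.ofReal (1 - Real.exp (-(r e : ℝ))) := by
    intro e
    rw [prob_compl_eq_one_sub (measurableSet_singleton 0), h0,
      ENNReal.ofReal_sub _ (Real.exp_pos _).le, ENNReal.ofReal_one]
  have hr : ∀ e ∈ s, 0 ≤ (r e : ℝ) := fun e _ => (r e).2
  have hC : ∀ η ⊆ s, Measure.infinitePi (fun e : ι => poissonMeasure (r e)) (C η)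
      = ENNReal.ofReal ((∏ e ∈ η, (1 - Real.exp (-(r e : ℝ))))
        * ∏ e ∈ s \ η, Real.exp (-(r e : ℝ))) := by
    intro η hη
    rw [Measure.infinitePi_pi _ (fun e _ => MeasurableSet.of_discrete),
      ← Finset.prod_sdiff hη, mul_comm,
      ENNReal.ofReal_mul (Finset.prod_nonneg fun e _ => one_sub_exp_nonneg (NNReal.coe_nonneg _)),
      ENNReal.ofReal_prod_of_nonneg (fun e _ => one_sub_exp_nonneg (NNReal.coe_nonneg _)),
      ENNReal.ofReal_prod_of_nonneg (fun e _ => (Real.exp_pos _).le)]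
    congr 1
    · exact Finset.prod_congr rfl fun e he => by rw [if_pos he, h1]
    · exact Finset.prod_congr rfl fun e he => by rw [if_neg (Finset.mem_sdiff.1 he).2, h0]
  refine (measure_mono hsub).trans ((measure_biUnion_finset_le _ _).trans (le_of_eq ?_))
  unfold Ex
  beta_reduce
  rw [ENNReal.ofReal_sum_of_nonneg, Finset.sum_filter]
  · refine Finset.sum_congr rfl fun η hη => ?_
    split_ifs
    · rw [hC η (Finset.mem_powerset.1 hη), mul_one]
    · simp
  · intro η hη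
    refine mul_nonneg (weight_nonneg hr (Finset.mem_powerset.1 hη)) ?_
    split_ifs <;> norm_num

lemma exists_edges [Group Γ] (μ : PMF Γ) (hμ : ∀ g, μ g⁻¹ = μ g) (S : Finset Γ) {x : ℝ}
    (hx0 : 0 ≤ x) (hx : ENNReal.ofReal x < boundary μ S) :
    ∃ s : Finset (Pairs Γ), x ≤ bd src tgt s (fun e => (pairWeight μ hμ e.1 : ℝ)) S := by
  unfold boundary at hx
  rw [ENNReal.tsum_eq_iSup_sum, lt_iSup_iff] at hx
  obtain ⟨F, hF⟩ := hx
  let j : {p : Γ × Γ // p.1 ∈ S ∧ p.2 ∉ S} → Pairs Γ := fun p =>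
    ⟨s(p.1.1, p.1.2), by
      rw [Sym2.mk_isDiag_iff]
      exact fun h => p.2.2 (h ▸ p.2.1)⟩
  have hj : Function.Injective j := by
    intro p q hpq
    have h1 : s(p.1.1, p.1.2) = s(q.1.1, q.1.2) := congrArg Subtype.val hpq
    rw [Sym2.eq_iff] at h1
    rcases h1 with ⟨a, b⟩ | ⟨a, b⟩
    · exact Subtype.ext (Prod.ext a b)
    · exact absurd (a ▸ p.2.1) q.2.2
  refine ⟨F.image j, ?_⟩
  unfold bd
  rw [Finset.filter_true_of_mem, Finset.sum_image fun p _ q _ h => hj h]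
  · have h2 : ∑ p ∈ F, μ (p.1.1⁻¹ * p.1.2)
        = ENNReal.ofReal (∑ p ∈ F, (pairWeight μ hμ (j p).1 : ℝ)) := by
      rw [ENNReal.ofReal_sum_of_nonneg fun p _ => NNReal.coe_nonneg _]
      refine Finset.sum_congr rfl fun p _ => ?_
      simp only [j, pairWeight, Sym2.lift_mk, ENNReal.ofReal_coe_nnreal]
      rw [ENNReal.coe_toNNReal (μ.apply_ne_top _)]
    rw [h2] at hF
    exact ((ENNReal.ofReal_lt_ofReal_iff_of_nonneg hx0).1 hF).le
  · intro e he
    obtain ⟨p, _, rfl⟩ := Finset.mem_image.1 he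
    exact cross_of_eq rfl p.2.1 p.2.2

lemma prof_rpow {a γ : ℝ} (ha : 0 < a) (hγ : 0 < γ) :
    Prof (fun n : ℕ => a * (n : ℝ) ^ γ) ((2 : ℝ) ^ γ) := by
  refine ⟨Real.one_lt_rpow one_lt_two hγ, fun n hn => ?_, fun m n hn hnm => ?_,
    fun m n hn hnm => ?_⟩
  · have : (0 : ℝ) < n := by exact_mod_cast hn
    positivity
  · exact mul_le_mul_of_nonneg_left
      (Real.rpow_le_rpow (Nat.cast_nonneg n) (by exact_mod_cast hnm) hγ.le) ha.le
  · have h1 : (2 : ℝ) ^ γ * (a * (n : ℝ) ^ γ) = a * ((2 * n : ℝ)) ^ γ := by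
      rw [Real.mul_rpow zero_le_two (Nat.cast_nonneg n)]; ring
    rw [h1]
    exact mul_le_mul_of_nonneg_left
      (Real.rpow_le_rpow (by positivity) (by exact_mod_cast hnm) hγ.le) ha.le

lemma iso_of_dim [Group Γ] (μ : PMF Γ) (hdim : 1 < isoDim μ) :
    ∃ a γ : ℝ, 0 < a ∧ 0 < γ ∧ ∀ S : Finset Γ, S.Nonempty →
      ENNReal.ofReal ((a * (S.card : ℝ) ^ γ) ^ 2) < boundary μ S := by
  unfold isoDim at hdim
  simp only [lt_iSup_iff] at hdim
  obtain ⟨d, -, hc, hd⟩ := hdim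
  have hd1 : (1 : ℝ) < d := by exact_mod_cast hd
  obtain ⟨c, hc0, hc1, hc2⟩ := ENNReal.lt_iff_exists_real_btwn.1 hc
  have hcpos : 0 < c := ENNReal.ofReal_pos.1 hc1
  have hγ : 0 < ((d : ℝ) - 1) / d := div_pos (by linarith) (by linarith)
  refine ⟨Real.sqrt c, ((d : ℝ) - 1) / d / 2, Real.sqrt_pos.2 hcpos, by positivity, fun S hS => ?_⟩
  have hcard : (0 : ℝ) < S.card := by exact_mod_cast hS.card_pos
  have h1 : ENNReal.ofReal c < boundary μ S / (S.card : ℝ≥0∞) ^ (((d : ℝ) - 1) / d) :=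
    lt_of_lt_of_le hc2 (iInf₂_le S hS)
  have h2 : (S.card : ℝ≥0∞) ^ (((d : ℝ) - 1) / d)
      = ENNReal.ofReal ((S.card : ℝ) ^ (((d : ℝ) - 1) / d)) := by
    rw [← ENNReal.ofReal_rpow_of_pos hcard, ENNReal.ofReal_natCast]
  have h3 : 0 < (S.card : ℝ) ^ (((d : ℝ) - 1) / d) := Real.rpow_pos_of_pos hcard _
  rw [h2, ENNReal.lt_div_iff_mul_lt (Or.inl (ENNReal.ofReal_pos.2 h3).ne')
    (Or.inl ENNReal.ofReal_ne_top), ← ENNReal.ofReal_mul hc0] at h1
  have h4 : (Real.sqrt c * (S.card : ℝ) ^ (((d : ℝ) - 1) / d / 2)) ^ 2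
      = c * (S.card : ℝ) ^ (((d : ℝ) - 1) / d) := by
    rw [mul_pow, Real.sq_sqrt hc0, ← Real.rpow_natCast, ← Real.rpow_mul hcard.le]
    congr 2
    push_cast; ring
  rw [h4]
  exact h1

theorem finite_cluster_le [Group Γ] [Countable Γ] (μ : PMF Γ) (hμ : ∀ g, μ g⁻¹ = μ g)
    (hdim : 1 < isoDim μ) :
    ∃ l0 : ℝ≥0, ∀ lam : ℝ≥0, l0 ≤ lam →
      law μ hμ lam {ω | {h : Γ | (graphOf ω).Reachable 1 h}.Finite} ≤ 1 / 2 := by
  obtain ⟨a, γ, ha, hγ, hiso⟩ := iso_of_dim μ hdim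
  obtain ⟨l0, hl0⟩ := finite_bound (V := Γ) (E := Pairs Γ) (prof_rpow ha hγ)
  refine ⟨l0.toNNReal, fun lam hlam => ?_⟩
  have hlam' : l0 ≤ (lam : ℝ) := (Real.le_coe_toNNReal l0).trans (by exact_mod_cast hlam)
  let U : Finset Γ → Set (Pairs Γ → ℕ) := fun L =>
    {ω | {h : Γ | (graphOf ω).Reachable 1 h} ⊆ L}
  have hU : {ω | {h : Γ | (graphOf ω).Reachable 1 h}.Finite} = ⋃ L, U L := by
    ext ω
    simp only [Set.mem_ofPred_eq, Set.mem_iUnion, U]
    constructor
    · intro h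
      exact ⟨h.toFinset, by simp⟩
    · rintro ⟨L, hL⟩
      exact L.finite_toSet.subset hL
  have hdir : Directed (· ⊆ ·) U := by
    intro L L'
    refine ⟨L ∪ L', fun ω hω => ?_, fun ω hω => ?_⟩
    · exact Set.Subset.trans hω (by simp)
    · exact Set.Subset.trans hω (by simp)
  rw [hU, hdir.measure_iUnion]
  refine iSup_le fun L => ?_
  have hex : ∀ S : Finset Γ, S.Nonempty → ∃ s : Finset (Pairs Γ),
      (a * (S.card : ℝ) ^ γ) ^ 2 ≤ bd src tgt s (fun e => (pairWeight μ hμ e.1 : ℝ)) S :=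
    fun S hS => exists_edges μ hμ S (sq_nonneg _) (hiso S hS)
  choose! sS hsS using hex
  set s := L.powerset.biUnion sS with hs
  have hiso' : ∀ S : Finset Γ, S.Nonempty → S ⊆ L →
      (a * (S.card : ℝ) ^ γ) ^ 2 ≤ bd src tgt s (fun e => (pairWeight μ hμ e.1 : ℝ)) S := by
    intro S hS hSL
    refine (hsS S hS).trans ?_
    unfold bd
    refine Finset.sum_le_sum_of_subset_of_nonneg (Finset.filter_subset_filter _ ?_)
      fun e _ _ => (pairWeight μ hμ e.1).2
    exact Finset.subset_biUnion_of_mem sS (Finset.mem_powerset.2 hSL)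
  have hb := hl0 src tgt s (fun e => (pairWeight μ hμ e.1 : ℝ)) L 1 lam
    (fun e _ => (pairWeight μ hμ e.1).2) hiso' hlam'
  have hsub : U L ⊆ {ω | Trapped src tgt L 1 (s.filter fun e => ω e ≠ 0)} := by
    intro ω hω
    refine ⟨L.filter fun h => (graphOf ω).Reachable 1 h, Finset.filter_subset _ _, ?_, ?_⟩
    · exact Finset.mem_filter.2 ⟨hω (SimpleGraph.Reachable.refl _), SimpleGraph.Reachable.refl _⟩
    · intro e he
      have hadj := adj_of_open (Finset.mem_filter.1 he).2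
      unfold Cross
      rw [not_not, Finset.mem_filter, Finset.mem_filter]
      constructor
      · rintro ⟨_, h⟩
        exact ⟨hω (h.trans hadj.reachable), h.trans hadj.reachable⟩
      · rintro ⟨_, h⟩
        exact ⟨hω (h.trans hadj.symm.reachable), h.trans hadj.symm.reachable⟩
  refine (measure_mono hsub).trans ((measure_le_Ex _ s _).trans ?_)
  have h2 : (1 / 2 : ℝ≥0∞) = ENNReal.ofReal (1 / 2) := by
    rw [ENNReal.ofReal_div_of_pos two_pos]; simp
  rw [h2]
  refine ENNReal.ofReal_le_ofReal ?_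
  simpa only [NNReal.coe_mul] using hb

theorem lambdaC_lt_top [Group Γ] [Countable Γ] (μ : PMF Γ) (hμ : ∀ g, μ g⁻¹ = μ g)
    (hdim : 1 < isoDim μ) : lambdaC μ hμ < ⊤ := by
  obtain ⟨l0, hl0⟩ := finite_cluster_le μ hμ hdim
  refine lt_of_le_of_lt ?_ (ENNReal.coe_lt_top (r := l0))
  unfold lambdaC
  refine iSup_le fun lam => iSup_le fun _ => iSup_le fun h0 => ?_
  by_contra hlt
  have hle : l0 ≤ lam := by
    rw [ENNReal.coe_le_coe] at hlt
    exact (not_le.1 hlt).le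
  have h1 := hl0 lam hle
  have hprob : IsProbabilityMeasure (law μ hμ lam) := by
    unfold law; infer_instance
  have hcov : (Set.univ : Set (Pairs Γ → ℕ)) ⊆ {ω | HasInfiniteComponent ω}
      ∪ {ω | {h : Γ | (graphOf ω).Reachable 1 h}.Finite} := by
    intro ω _
    by_cases h : {h : Γ | (graphOf ω).Reachable 1 h}.Finite
    · exact Or.inr h
    · exact Or.inl ⟨1, h⟩
  have h2 := (measure_mono (μ := law μ hμ lam) hcov).trans (measure_union_le _ _)
  rw [measure_univ, h0, zero_add] at h2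
  have h3 := h2.trans h1
  norm_num at h3

end Pool.Agent.P.MP_7c03a7_pr
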